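import Pool.Agent.J4H92.CM.Stm

/-! Project CM: `A` is entire, the series of `u`, conjugate coefficients. -/

namespace Pool.Agent.J4H85.CM

open Filter Topology MeasureTheory Pool.Agent.J4H92.CM
open scoped ComplexConjugate

theorem t_ZES : S_ZES := by
  intro s hs
  have h1 : 1 < (s + 1).re := by simp; linarith
  rw [← LSeries_one_eq_riemannZeta h1]
  unfold LSeries
  refine tsum_congr fun n => ?_
  rcases Nat.eq_zero_or_pos n with rfl | hn
  · simp
  · have hn' : (n : ℂ) ≠ 0 := by exact_mod_cast hn.ne'
    rw [LSeries.term_of_ne_zero hn.ne', LSeries.term_of_ne_zero hn.ne', Complex.cpow_add _ _ hn',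
      Complex.cpow_one]
    unfold u
    simp only [Pi.one_apply]
    field_simp

theorem t_CNJ : S_CNJ := by
  intro f s
  unfold m
  rw [← integral_conj]
  refine setIntegral_congr_fun measurableSet_Ioi fun t ht => ?_
  have ht0 : (0 : ℝ) ≤ t := le_trans zero_le_one (le_of_lt ht)
  simp only [map_mul]
  congr 1
  · unfold S
    rw [map_sum]
  · have h : (t : ℂ).arg ≠ Real.pi := by
      rw [Complex.arg_ofReal_of_nonneg ht0]
      exact Real.pi_pos.ne
    have h2 := Complex.conj_cpow (t : ℂ) (-(s + 1)) h
    rw [Complex.conj_ofReal] at h2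
    rw [h2]
    simp

theorem t_ZET : S_ZET := by
  unfold S_ZET A
  have h : ∀ s : ℂ, s ≠ 0 → DifferentiableAt ℂ (fun s : ℂ => s * riemannZeta (s + 1)) s := by
    intro s hs
    refine DifferentiableAt.mul differentiableAt_id ?_
    refine (differentiableAt_riemannZeta ?_).comp s (by fun_prop)
    simpa using hs
  have hl : Tendsto (fun s : ℂ => s * riemannZeta (s + 1)) (𝓝[≠] 0) (𝓝 1) := by
    have h1 := riemannZeta_residue_one
    have h2 : Tendsto (fun s : ℂ => s + 1) (𝓝[≠] 0) (𝓝[≠] 1) := by
      refine tendsto_nhdsWithin_iff.2 ⟨?_, ?_⟩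
      · have : Tendsto (fun s : ℂ => s + 1) (𝓝 0) (𝓝 (0 + 1)) := by
          exact (continuous_id.add continuous_const).tendsto 0
        rw [zero_add] at this
        exact this.mono_left nhdsWithin_le_nhds
      · filter_upwards [self_mem_nhdsWithin] with s hs
        simpa using hs
    refine (h1.comp h2).congr fun s => ?_
    simp
  have hc : ContinuousAt (Function.update (fun s : ℂ => s * riemannZeta (s + 1)) 0 1) 0 :=
    continuousAt_update_same.2 hl
  intro s
  have hA : DifferentiableOn ℂ (Function.update (fun s : ℂ => s * riemannZeta (s + 1)) 0 1) Set.univ := by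
    rw [← Complex.differentiableOn_compl_singleton_and_continuousAt_iff (c := 0) Filter.univ_mem]
    refine ⟨?_, hc⟩
    intro s hs
    have hs0 : s ≠ 0 := by simpa using hs
    refine DifferentiableAt.differentiableWithinAt ?_
    refine (h s hs0).congr_of_eventuallyEq ?_
    filter_upwards [isOpen_ne.mem_nhds hs0] with z hz
    exact Function.update_of_ne hz _ _
  exact (hA s (Set.mem_univ s)).differentiableAt Filter.univ_mem

end Pool.Agent.J4H85.CM
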